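import Mathlib
import Pool.Agent.H706Z.SeqEx

set_option autoImplicit false

namespace Pool.Agent.Results.MP_718903_gt.ACountable

open Pool.Agent.H706Z

/-- There is a countable sequential T1 space (so separable and d-separable) that is not
D-separable. -/
theorem result : ∃ (X : Type) (_ : TopologicalSpace X), Countable X ∧ T1Space X ∧
    SequentialSpace X ∧ TopologicalSpace.SeparableSpace X ∧ LittleDSeparable X ∧
    ¬ BigDSeparable X := by
  have := SeqEx.frechet
  refine ⟨SeqEx.Lev, inferInstance, inferInstance, SeqEx.t1, inferInstance, inferInstance, ?_,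
    SeqEx.not_bigD⟩
  obtain ⟨u, hu⟩ := exists_surjective_nat (ℕ × ℕ)
  refine ⟨fun n => {u n}, fun n => inferInstance, fun x => subset_closure ?_⟩
  obtain ⟨n, rfl⟩ := hu x
  exact Set.mem_iUnion.mpr ⟨n, rfl⟩

end Pool.Agent.Results.MP_718903_gt.ACountable
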