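import Mathlib
import Pool.Agent.H706Z.SeqEx
import Pool.Agent.H706Z.Sigma

set_option autoImplicit false

namespace Pool.Agent.Results.MP_718903_gt.BHausdorff

open Pool.Agent.H706Z

/-- Among Hausdorff spaces: a Tychonoff sequential d-separable space need not be D-separable,
while every separable sequential Hausdorff space is D-separable. -/
theorem result :
    (∃ (X : Type) (_ : TopologicalSpace X), T35Space X ∧ SequentialSpace X ∧
      LittleDSeparable X ∧ ¬ BigDSeparable X) ∧
    (∀ (X : Type) [TopologicalSpace X], T2Space X → SequentialSpace X →
      TopologicalSpace.SeparableSpace X → BigDSeparable X) := by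
  have := Sigma.frechet (I := ℝ)
  exact ⟨⟨SigmaCube ℝ, inferInstance, inferInstance, inferInstance, Sigma.littleD,
    Sigma.not_bigD_real⟩, fun X _ _ _ _ => SeqEx.bigD_of_separable X⟩

end Pool.Agent.Results.MP_718903_gt.BHausdorff
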